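import Pool.Agent.R490.Adm

set_option autoImplicit false

/-!
# Narrow progressions in arbitrary sets of prime or rough triples `0, 2, 6` and quadruples `0, 2, 6, 8`
-/

namespace Pool.Agent.Results.MP_3efbeb_nt.NarrowProgressions

open Finset Filter

/-- The `m` such that for all `h ∈ H` all prime factors of `m + h` exceed `m ^ (1 / r)`. For `r ≥ 2` this set
contains all large `m` for which all `m + h` are primes. -/
def RoughTuples (H : Finset ℕ) (r : ℕ) : Set ℕ :=
  {m | ∀ h ∈ H, ∀ p : ℕ, p.Prime → p ∣ m + h → (m : ℝ) ^ (1 / (r : ℝ)) < (p : ℝ)}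

/-- `m` is a term of an `l`-term arithmetic progression with difference at most `D`, all terms of which
are elements of `A` strictly between `a` and `b`. -/
def InProgression (A : Set ℕ) (l : ℕ) (D : ℝ) (a b m : ℕ) : Prop :=
  ∃ s d : ℕ, 1 ≤ d ∧ (d : ℝ) ≤ D ∧ (∀ i < l, s + i * d ∈ A ∧ a < s + i * d ∧ s + i * d < b) ∧
    ∃ i < l, m = s + i * d

open Classical in
/-- **Narrow progressions.** Let `H = {0, 2, 6}`, `k = 3` or `H = {0, 2, 6, 8}`, `k = 4`, and `θ, ε > 0`,
`r, l ≥ 2`. There is an exponent `B` such that for all large `X`, all `X ^ θ ≤ Y ≤ X` and EVERY set `A` of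
integers `m` for which all `m + h`, `h ∈ H`, have all prime factors `> m ^ (1 / r)`, for instance every set of
large `m` for which all `m + h` are primes: all but at most `ε Y / (log X) ^ k` of the elements of `A` in
`(X, X + Y]` are terms of `l`-term arithmetic progressions with difference at most `(log X) ^ B` all terms of
which are in `A` and in `(X, X + Y]`. -/
theorem result (H : Finset ℕ) (k : ℕ) (hH : (H = {0, 2, 6} ∧ k = 3) ∨ (H = {0, 2, 6, 8} ∧ k = 4))
    (θ : ℝ) (hθ : 0 < θ) (r : ℕ) (hr : 2 ≤ r) (l : ℕ) (hl : 2 ≤ l) (ε : ℝ) (hε : 0 < ε) :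
    ∃ B : ℕ, ∀ᶠ X : ℕ in atTop, ∀ Y : ℕ, (X : ℝ) ^ θ ≤ Y → Y ≤ X →
      ∀ A : Set ℕ, A ⊆ RoughTuples H r →
        (((Ioc X (X + Y)).filter (fun m : ℕ =>
          m ∈ A ∧ ¬ InProgression A l (Real.log X ^ B) X (X + Y + 1) m)).card : ℝ) ≤
        ε * (Y / Real.log X ^ k) := by
  rcases hH with ⟨rfl, rfl⟩ | ⟨rfl, rfl⟩
  · obtain ⟨B, h⟩ := Pool.Agent.R490.Tu.narH {0, 2, 6} ⟨0, by decide⟩ Pool.Agent.R490.Tu.adm_ta θ hθ r hr l hl
      ε hε
    have c2 : ({0, 2, 6} : Finset ℕ).card = 3 := by decide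
    rw [c2] at h
    refine ⟨B, ?_⟩
    filter_upwards [h] with X hX Y hXY hYX A hA
    exact hX Y hXY hYX A (fun m hm => hA hm)
  · obtain ⟨B, h⟩ := Pool.Agent.R490.Tu.narH {0, 2, 6, 8} ⟨0, by decide⟩ Pool.Agent.R490.Tu.adm_qu θ hθ r hr l hl
      ε hε
    have c2 : ({0, 2, 6, 8} : Finset ℕ).card = 4 := by decide
    rw [c2] at h
    refine ⟨B, ?_⟩
    filter_upwards [h] with X hX Y hXY hYX A hA
    exact hX Y hXY hYX A (fun m hm => hA hm)

end Pool.Agent.Results.MP_3efbeb_nt.NarrowProgressions
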